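import Mathlib
import Pool.Agent.H53.AdmDefs
import Pool.Agent.H53.AdmOne
import Pool.Agent.H53.AdmTwo

namespace Pool.Agent.Results.MP_6d7a61_nt.Classification

open Pool.Agent.H53.AdmDefs

/-- A pair `(m, n)` of positive integers is admissible if and only if `m ≥ 2`. -/
theorem result : ∀ m n : ℕ, 1 ≤ m → 1 ≤ n → (Admissible m n ↔ 2 ≤ m) := by
  intro m n hm hn
  constructor
  · intro h
    by_contra h2
    have : m = 1 := by omega
    subst this
    exact Pool.Agent.H53.AdmOne.not_adm n hn h
  · exact fun h => Pool.Agent.H53.AdmTwo.adm m n h hn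

end Pool.Agent.Results.MP_6d7a61_nt.Classification
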